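import Pool.Agent.Lib.MP_d69fce_al.Crit

open Pool.Agent.Lib.MP_d69fce_al

namespace Pool.Agent.Results.MP_d69fce_al.CentralExtCriterion

/-- For a complex Lie algebra `L` with trivial centre and only trivial half-derivations, a
one-dimensional central extension `E` of `L` attached to a cocycle that is not a coboundary has only
trivial half-derivations if and only if `L` is perfect, and it has only trivial transposed Poisson
structures if and only if `L` is perfect. -/
theorem result : ∀ (L E : Type) [LieRing L] [LieAlgebra ℂ L] [LieRing E] [LieAlgebra ℂ E]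
    (ω : L →ₗ[ℂ] L →ₗ[ℂ] ℂ) (e : E ≃ₗ[ℂ] L × ℂ),
    IsCentreless L → OnlyTrivialHalfDer L → IsCentralExt ω e → ¬ IsCoboundary ω →
      (OnlyTrivialHalfDer E ↔ IsPerfectAlg L) ∧ (OnlyTrivialTPS E ↔ IsPerfectAlg L) :=
  fun _ _ _ _ _ _ _ _ hc hL he hω => criterion hc hL he hω

end Pool.Agent.Results.MP_d69fce_al.CentralExtCriterion
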