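import Pool.Agent.Lib.MP_d69fce_al.FamExt

open Pool.Agent.Lib.MP_d69fce_al

namespace Pool.Agent.Results.MP_d69fce_al.CentralExtFamily

/-- For every `n ≥ 2` there is a complex Lie algebra `L` of dimension `n ^ 2 + 2 * n` with trivial
centre, with only trivial half-derivations and only trivial transposed Poisson structures, and a
one-dimensional central extension `E` of `L`, attached to a cocycle that is not a coboundary, which
has a non-trivial half-derivation and a non-trivial transposed Poisson structure. -/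
theorem result : ∀ n : ℕ, 2 ≤ n → ∃ (L E : Type) (_ : LieRing L) (_ : LieAlgebra ℂ L)
    (_ : LieRing E) (_ : LieAlgebra ℂ E) (ω : L →ₗ[ℂ] L →ₗ[ℂ] ℂ) (e : E ≃ₗ[ℂ] L × ℂ),
    Module.finrank ℂ L = n ^ 2 + 2 * n ∧ IsCentreless L ∧ OnlyTrivialHalfDer L ∧
      OnlyTrivialTPS L ∧ IsCentralExt ω e ∧ ¬ IsCoboundary ω ∧ ¬ OnlyTrivialHalfDer E ∧
      ¬ OnlyTrivialTPS E := by
  intro n hn
  have hw : ¬ IsCoboundary (GV.w n) := GV.w_not_coboundary (by omega)
  have hcrit := criterion GV.centreless (GV.rigid hn) (GV.eqv_isCentralExt n) hw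
  have hnp : ¬ IsPerfectAlg (GV n) := GV.not_perfect (by omega)
  refine ⟨GV n, GV.Ext n, inferInstance, inferInstance, inferInstance, inferInstance, GV.w n,
    GV.eqv n, GV.finrank_eq, GV.centreless, GV.rigid hn,
    onlyTrivialTPS_of_halfDer (GV.rigid hn) (GV.exists_lie_ne (by omega)),
    GV.eqv_isCentralExt n, hw, fun h => hnp (hcrit.1.1 h), fun h => hnp (hcrit.2.1 h)⟩

end Pool.Agent.Results.MP_d69fce_al.CentralExtFamily
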