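import Pool.Agent.Lib.MP_d69fce_al.Main

open Pool.Agent.Lib.MP_d69fce_al

namespace Pool.Agent.Results.MP_d69fce_al.CentralExtHalfDer

/-- There is a finite-dimensional complex Lie algebra `L` with only trivial half-derivations and a
one-dimensional central extension `E` of `L`, attached to a cocycle that is not a coboundary, which
has a non-trivial half-derivation. -/
theorem result : ¬ ∀ (L E : Type) [LieRing L] [LieAlgebra ℂ L] [LieRing E] [LieAlgebra ℂ E]
    (ω : L →ₗ[ℂ] L →ₗ[ℂ] ℂ) (e : E ≃ₗ[ℂ] L × ℂ),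
    Module.Finite ℂ L → OnlyTrivialHalfDer L → IsCentralExt ω e → ¬ IsCoboundary ω →
      OnlyTrivialHalfDer E := fun h =>
  not_onlyTrivialHalfDer omega8 f8 f8_lie (L8.e 3) f8_e3
    (h L8 E8 w8 equiv8 finite_L8 L8_onlyTrivialHalfDer equiv8_isCentralExt w8_not_coboundary)

end Pool.Agent.Results.MP_d69fce_al.CentralExtHalfDer
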